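import Pool.Agent.MRE.Opp

set_option autoImplicit false

/-!
# Ends of the Oppermann intervals, for almost all `n`
-/

namespace Pool.Agent.Results.MP_1e9cc8_nt.AlmostAllEnds

/-- For all `q ≥ 2` and `η > 0` there are `c > 0` and `H0` such that for all `H ≥ H0`, all real
`α ∈ [-1, 1)` and all large `N` the following holds for all but at most `η N` of the `n ≤ N`:
for every residue `a` modulo `q`, the intervals `(n² - H, n²)` and `(n² + n - H, n² + n)` contain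
at least `c √H` integers `m` with `Ω(m) ≢ a (mod q)`, and the interval
`(n² + α n, n² + α n + H √n)` contains at least `c H` such integers. -/
theorem result (q : ℕ) (hq : 2 ≤ q) (η : ℝ) (hη : 0 < η) :
    ∃ c : ℝ, 0 < c ∧ ∃ H0 : ℕ, ∀ H : ℕ, H0 ≤ H → ∀ α : ℝ, -1 ≤ α → α < 1 → ∃ N0 : ℕ, ∀ N : ℕ,
      N0 ≤ N → (Set.ncard {n : ℕ | 1 ≤ n ∧ n ≤ N ∧ ¬ ∀ a : ℕ,
        c * √H ≤ Set.ncard {m : ℕ | (n : ℝ) ^ 2 - H < m ∧ (m : ℝ) < (n : ℝ) ^ 2 ∧
          ¬ ArithmeticFunction.cardFactors m ≡ a [MOD q]} ∧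
        c * √H ≤ Set.ncard {m : ℕ | (n : ℝ) ^ 2 + n - H < m ∧ (m : ℝ) < (n : ℝ) ^ 2 + n ∧
          ¬ ArithmeticFunction.cardFactors m ≡ a [MOD q]} ∧
        c * H ≤ Set.ncard {m : ℕ | (n : ℝ) ^ 2 + α * n < m ∧
          (m : ℝ) < (n : ℝ) ^ 2 + α * n + H * √n ∧
          ¬ ArithmeticFunction.cardFactors m ≡ a [MOD q]}} : ℝ) ≤ η * N :=
  Pool.Agent.MRE.ends q hq η hη

end Pool.Agent.Results.MP_1e9cc8_nt.AlmostAllEnds
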