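import Mathlib
import Pool.Agent.RPS.Main
import Pool.Agent.RPS.PrimeAP
import Pool.Agent.SSQ.Omega

set_option autoImplicit false

/-!
# Almost primes of both parities in intervals shorter than the square root
-/

namespace Pool.Agent.Results.MP_1e9cc8_nt.AlmostPrimesBothParities

open Pool.Agent.SqrtParity Pool.Agent.SSQ Pool.Agent.RPS Finset ArithmeticFunction

/-- `m` is a positive integer with at most `K` prime factors, counted with multiplicity, all of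
them larger than `y` -/
def Almost (K : ℕ) (y : ℝ) (m : ℕ) : Prop :=
  0 < m ∧ cardFactors m ≤ K ∧ ∀ p : ℕ, p.Prime → p ∣ m → y < p

theorem prod_ge {y : ℝ} (hy : 0 ≤ y) : ∀ l : List ℕ, (∀ p ∈ l, y < (p : ℝ)) →
    y ^ l.length ≤ (l.prod : ℝ) := by
  intro l
  induction l with
  | nil => intro _; simp
  | cons a l ih =>
    intro h
    have h1 := ih (fun p hp => h p (List.mem_cons_of_mem _ hp))
    have h2 : y < a := h a List.mem_cons_self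
    rw [List.length_cons, List.prod_cons, pow_succ, mul_comm, Nat.cast_mul]
    exact mul_le_mul h2.le h1 (by positivity) (by linarith)

theorem pow_card_le {y : ℝ} (hy : 0 ≤ y) {m : ℕ} (hm : 0 < m)
    (h : ∀ p : ℕ, p.Prime → p ∣ m → y < p) : y ^ cardFactors m ≤ m := by
  have h1 := prod_ge hy m.primeFactorsList
    (fun p hp => h p (Nat.prime_of_mem_primeFactorsList hp) (Nat.dvd_of_mem_primeFactorsList hp))
  rw [Nat.prod_primeFactorsList hm.ne'] at h1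
  rw [cardFactors_apply]
  exact h1

theorem omegaP_univ (m : ℕ) : omegaP Set.univ m = cardFactors m := by
  rw [omegaP, cardFactors_apply]
  simp

/-- both parities, for sets `P` containing a suitable prime -/
theorem main : ∃ (W K : ℕ) (σ : ℝ), 1 ≤ W ∧ 0 < σ ∧ σ ≤ 1 / 4 ∧ ∃ x0 : ℝ, 1 ≤ x0 ∧ ∀ x ≥ x0,
    ∀ P : Set ℕ, (∃ p ∈ P, p.Prime ∧ p ≡ 1 [MOD W] ∧ x ^ ((1 : ℝ) / 4000) ≤ p ∧
      (p : ℝ) ≤ x ^ ((1 : ℝ) / 2000)) → ∀ e : ℤ, (e = 1 ∨ e = -1) →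
      ∃ m : ℕ, x < m ∧ (m : ℝ) ≤ x + x ^ (1 / 2 - σ) ∧ Almost K (x ^ σ) m ∧ sg P m = e := by
  obtain ⟨W, s, hW, hs, n0, hn0⟩ := mainR
  obtain ⟨σ, hσ⟩ : ∃ σ : ℝ, σ = min (1 / 4) (s / 2) := ⟨_, rfl⟩
  have hσ0 : 0 < σ := by rw [hσ]; exact lt_min (by norm_num) (by positivity)
  have hσ1 : σ ≤ 1 / 4 := by rw [hσ]; exact min_le_left _ _
  have hσs : σ ≤ s / 2 := by rw [hσ]; exact min_le_right _ _
  obtain ⟨K, hK⟩ := exists_nat_ge (2 / σ)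
  refine ⟨W, K, σ, hW, hσ0, hσ1, max 2 (n0 ^ 2), le_trans (by norm_num) (le_max_left _ _), ?_⟩
  intro x hx P ⟨p, hpP, hp, hpW, hp1, hp2⟩ e he
  have hx2 : 2 ≤ x := (le_max_left _ _).trans hx
  have hx0 : 0 < x := by linarith
  have hx1 : 1 ≤ x := by linarith
  have hsq : √x ^ 2 = x := Real.sq_sqrt hx0.le
  have hn : n0 ≤ √x := by
    apply Real.le_sqrt_of_sq_le
    exact (le_max_right _ _).trans hx
  have hpow : ∀ t : ℝ, √x ^ t = x ^ (t / 2) := by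
    intro t
    rw [Real.sqrt_eq_rpow, ← Real.rpow_mul hx0.le]
    congr 1; ring
  obtain ⟨m, hm1, hm2, hm3, hm4⟩ := hn0 (√x) hn (sg P) (sg_cm P)
    ⟨p, hp, hpW, by rw [hpow]; convert hp1 using 2; norm_num,
      by rw [hpow]; convert hp2 using 2; norm_num, sg_prime hp hpP⟩ e he
  rw [hsq] at hm1 hm2
  rw [hpow] at hm2
  have hm2' : (m : ℝ) ≤ x + x ^ (1 / 2 - σ) := by
    refine hm2.trans ?_
    have : x ^ ((1 - s) / 2) ≤ x ^ (1 / 2 - σ) :=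
      Real.rpow_le_rpow_of_exponent_le hx1 (by linarith)
    linarith
  have hm0 : 0 < m := by
    have : (0 : ℝ) < m := by linarith
    exact_mod_cast this
  have hpr : ∀ q : ℕ, q.Prime → q ∣ m → x ^ σ < q := by
    intro q hq hqm
    have h1 := hm3 q hq hqm
    rw [hpow] at h1
    exact lt_of_le_of_lt (Real.rpow_le_rpow_of_exponent_le hx1 hσs) h1
  refine ⟨m, hm1, hm2', ⟨hm0, ?_, hpr⟩, hm4⟩
  have h1 := pow_card_le (by positivity) hm0 hpr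
  have h2 : (m : ℝ) ≤ x ^ (2 : ℝ) := by
    refine hm2'.trans ?_
    have h3 : x ^ (1 / 2 - σ) ≤ x ^ (1 : ℝ) :=
      Real.rpow_le_rpow_of_exponent_le hx1 (by linarith)
    rw [Real.rpow_one] at h3
    have h4 : x ^ (2 : ℝ) = x * x := by
      rw [← sq]; exact_mod_cast Real.rpow_natCast x 2
    rw [h4]; nlinarith
  rw [← Real.rpow_natCast, ← Real.rpow_mul hx0.le] at h1
  have h3 : x ^ (σ * (cardFactors m : ℕ)) ≤ x ^ (2 : ℝ) := h1.trans h2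
  rw [Real.rpow_le_rpow_left_iff (by linarith)] at h3
  have h4 : ((cardFactors m : ℕ) : ℝ) ≤ 2 / σ := by
    rw [le_div_iff₀ hσ0]; linarith
  exact_mod_cast h4.trans hK

open Classical in
/-- There are `K` and `σ > 0` such that: (1) for all large `x` the interval
`(x, x + x ^ (1 / 2 - σ)]` contains an integer with an odd number `≤ K` of prime factors, all
`> x ^ σ`, and one with an even number `≤ K` of prime factors, all `> x ^ σ`; (2) for all large `n`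
each of the two Oppermann intervals `(n² - n, n²)`, `(n², n² + n)` contains at least `n ^ σ`
integers of each of these two kinds (with `n ^ σ` in place of `x ^ σ`); (3) the same as (1) for the
number of prime factors in a set `P` that contains a prime `p = 1 mod W` with
`x ^ (1 / 4000) ≤ p ≤ x ^ (1 / 2000)`. -/
theorem result : ∃ (K : ℕ) (σ : ℝ), 0 < σ ∧
    (∃ x0 : ℝ, ∀ x ≥ x0,
      (∃ m : ℕ, x < m ∧ (m : ℝ) ≤ x + x ^ (1 / 2 - σ) ∧ Almost K (x ^ σ) m ∧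
        Odd (cardFactors m)) ∧
      (∃ m : ℕ, x < m ∧ (m : ℝ) ≤ x + x ^ (1 / 2 - σ) ∧ Almost K (x ^ σ) m ∧
        Even (cardFactors m))) ∧
    (∃ n0 : ℕ, ∀ n : ℕ, n0 ≤ n →
      (n : ℝ) ^ σ ≤ (((Ioo (n ^ 2 - n) (n ^ 2)).filter
        (fun m => Almost K ((n : ℝ) ^ σ) m ∧ Odd (cardFactors m))).card : ℝ) ∧
      (n : ℝ) ^ σ ≤ (((Ioo (n ^ 2 - n) (n ^ 2)).filter
        (fun m => Almost K ((n : ℝ) ^ σ) m ∧ Even (cardFactors m))).card : ℝ) ∧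
      (n : ℝ) ^ σ ≤ (((Ioo (n ^ 2) (n ^ 2 + n)).filter
        (fun m => Almost K ((n : ℝ) ^ σ) m ∧ Odd (cardFactors m))).card : ℝ) ∧
      (n : ℝ) ^ σ ≤ (((Ioo (n ^ 2) (n ^ 2 + n)).filter
        (fun m => Almost K ((n : ℝ) ^ σ) m ∧ Even (cardFactors m))).card : ℝ)) ∧
    (∃ W : ℕ, 1 ≤ W ∧ ∃ x0 : ℝ, ∀ x ≥ x0, ∀ P : Set ℕ,
      (∃ p ∈ P, p.Prime ∧ p ≡ 1 [MOD W] ∧ x ^ ((1 : ℝ) / 4000) ≤ p ∧
        (p : ℝ) ≤ x ^ ((1 : ℝ) / 2000)) →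
      (∃ m : ℕ, x < m ∧ (m : ℝ) ≤ x + x ^ (1 / 2 - σ) ∧ Almost K (x ^ σ) m ∧
        Odd (omegaP P m)) ∧
      (∃ m : ℕ, x < m ∧ (m : ℝ) ≤ x + x ^ (1 / 2 - σ) ∧ Almost K (x ^ σ) m ∧
        Even (omegaP P m))) := by
  obtain ⟨W, K, σ, hW, hσ0, hσ1, x0, hx01, h⟩ := main
  obtain ⟨n1, hn1⟩ := prime_ap W hW
  -- part 3
  have h3 : ∀ x ≥ x0, ∀ P : Set ℕ,
      (∃ p ∈ P, p.Prime ∧ p ≡ 1 [MOD W] ∧ x ^ ((1 : ℝ) / 4000) ≤ p ∧
        (p : ℝ) ≤ x ^ ((1 : ℝ) / 2000)) →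
      (∃ m : ℕ, x < m ∧ (m : ℝ) ≤ x + x ^ (1 / 2 - σ) ∧ Almost K (x ^ σ) m ∧
        Odd (omegaP P m)) ∧
      (∃ m : ℕ, x < m ∧ (m : ℝ) ≤ x + x ^ (1 / 2 - σ) ∧ Almost K (x ^ σ) m ∧
        Even (omegaP P m)) := by
    intro x hx P hP
    obtain ⟨m, a1, a2, a3, a4⟩ := h x hx P hP (-1) (Or.inr rfl)
    obtain ⟨m', b1, b2, b3, b4⟩ := h x hx P hP 1 (Or.inl rfl)
    exact ⟨⟨m, a1, a2, a3, odd_of_sg a4⟩, ⟨m', b1, b2, b3, even_of_sg b4⟩⟩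
  -- part 1
  obtain ⟨x1, hx1⟩ : ∃ x1 : ℝ, x1 = max x0 (max (n1 ^ 2) 1) := ⟨_, rfl⟩
  have h1 : ∀ x ≥ x1,
      (∃ m : ℕ, x < m ∧ (m : ℝ) ≤ x + x ^ (1 / 2 - σ) ∧ Almost K (x ^ σ) m ∧
        Odd (cardFactors m)) ∧
      (∃ m : ℕ, x < m ∧ (m : ℝ) ≤ x + x ^ (1 / 2 - σ) ∧ Almost K (x ^ σ) m ∧
        Even (cardFactors m)) := by
    intro x hx
    rw [hx1] at hx
    have e1 : x0 ≤ x := (le_max_left _ _).trans hx
    have e2 : n1 ^ 2 ≤ x := ((le_max_left _ _).trans (le_max_right _ _)).trans hx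
    have e3 : 1 ≤ x := ((le_max_right _ _).trans (le_max_right _ _)).trans hx
    have hx0 : 0 < x := by linarith
    obtain ⟨q, hq, hqW, hq1, hq2⟩ := hn1 (√x) (Real.le_sqrt_of_sq_le e2)
    have hpow : ∀ t : ℝ, √x ^ t = x ^ (t / 2) := by
      intro t
      rw [Real.sqrt_eq_rpow, ← Real.rpow_mul hx0.le]
      congr 1; ring
    rw [hpow] at hq1 hq2
    have := h3 x e1 Set.univ ⟨q, Set.mem_univ _, hq, hqW, by convert hq1 using 2; norm_num,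
      by convert hq2 using 2; norm_num⟩
    simpa only [omegaP_univ] using this
  refine ⟨K, σ, hσ0, ⟨x1, h1⟩, ?_, ⟨W, hW, x0, h3⟩⟩
  -- part 2
  obtain ⟨n0, hn02, hn0⟩ := many hσ0 hσ1
  obtain ⟨n2, hn2⟩ := exists_nat_ge x1
  refine ⟨max n0 (n2 + 2), ?_⟩
  intro n hn
  have hn3 : n0 ≤ n := (le_max_left _ _).trans hn
  have hn4 : n2 + 2 ≤ n := (le_max_right _ _).trans hn
  have hX : ∀ X : ℕ, n ^ 2 - n ≤ X → ∀ x : ℝ, X ≤ x → x1 ≤ x ∧ (n : ℝ) ≤ x := by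
    intro X hX x hx
    have h1 : n + n ≤ n ^ 2 := by nlinarith
    have h2 : n ≤ X := by omega
    have h3 : (n : ℝ) ≤ x := le_trans (by exact_mod_cast h2) hx
    have h4 : (n2 : ℝ) ≤ n := by exact_mod_cast (by omega : n2 ≤ n)
    exact ⟨by linarith, h3⟩
  have hmono : ∀ x : ℝ, (n : ℝ) ≤ x → ∀ m, Almost K (x ^ σ) m → Almost K ((n : ℝ) ^ σ) m := by
    intro x hx m ⟨a, b, c⟩
    exact ⟨a, b, fun p hp hpm => lt_of_le_of_lt
      (Real.rpow_le_rpow (Nat.cast_nonneg _) hx hσ0.le) (c p hp hpm)⟩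
  have hod : ∀ X : ℕ, n ^ 2 - n ≤ X → X ≤ n ^ 2 →
      (n : ℝ) ^ σ ≤ (((Ioo X (X + n)).filter
        (fun m => Almost K ((n : ℝ) ^ σ) m ∧ Odd (cardFactors m))).card : ℝ) := by
    intro X hX1 hX2
    refine hn0 n hn3 X hX1 hX2 _ _ ?_
    intro x hx _
    obtain ⟨e1, e2⟩ := hX X hX1 x hx
    obtain ⟨m, a1, a2, a3, a4⟩ := (h1 x e1).1
    exact ⟨m, a1, a2, hmono x e2 m a3, a4⟩
  have hev : ∀ X : ℕ, n ^ 2 - n ≤ X → X ≤ n ^ 2 →
      (n : ℝ) ^ σ ≤ (((Ioo X (X + n)).filter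
        (fun m => Almost K ((n : ℝ) ^ σ) m ∧ Even (cardFactors m))).card : ℝ) := by
    intro X hX1 hX2
    refine hn0 n hn3 X hX1 hX2 _ _ ?_
    intro x hx _
    obtain ⟨e1, e2⟩ := hX X hX1 x hx
    obtain ⟨m, a1, a2, a3, a4⟩ := (h1 x e1).2
    exact ⟨m, a1, a2, hmono x e2 m a3, a4⟩
  have hsub : n ^ 2 - n + n = n ^ 2 := Nat.sub_add_cancel (by nlinarith)
  have e1 := hev (n ^ 2 - n) le_rfl (Nat.sub_le _ _)
  have o1 := hod (n ^ 2 - n) le_rfl (Nat.sub_le _ _)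
  rw [hsub] at e1 o1
  exact ⟨o1, e1, hod (n ^ 2) (Nat.sub_le _ _) le_rfl, hev (n ^ 2) (Nat.sub_le _ _) le_rfl⟩

end Pool.Agent.Results.MP_1e9cc8_nt.AlmostPrimesBothParities
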