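import Pool.Agent.MR.ZFinal

set_option autoImplicit false

/-!
# Numbers of prime factors modulo `k`, in residue classes, in intervals of length `c √x`
-/

namespace Pool.Agent.Results.MP_1e9cc8_nt.OmegaResidueClasses

open Finset

/-- There is an absolute `A` such that for all `c > 0`, `k ≥ 2` and all coprime `a`, `W`, every
interval `(x, x + c √x]` with `x` large contains, for each `j`, at least `√x / (log x)^A` integers
`n ≡ a (mod W)` with `Ω(n) ≢ j (mod k)`. -/
theorem result : ∃ A : ℕ, ∀ c : ℝ, 0 < c → ∀ k : ℕ, 2 ≤ k → ∀ W a : ℕ, 0 < W → a.Coprime W →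
    ∃ X0 : ℝ, ∀ x : ℝ, X0 ≤ x → ∀ j : ℕ,
      √x / Real.log x ^ A ≤
        (Set.ncard {n : ℕ | x < n ∧ (n : ℝ) ≤ x + c * √x ∧ n ≡ a [MOD W] ∧
          ¬ ArithmeticFunction.cardFactors n ≡ j [MOD k]} : ℝ) := by
  classical
  obtain ⟨A, hA⟩ := Pool.Agent.MR.omega_mod
  refine ⟨A, fun c hc k hk W a hW ha => ?_⟩
  obtain ⟨X0, hX0⟩ := hA c hc k hk W a hW ha
  refine ⟨max X0 0, fun x hx j => ?_⟩
  have hx0 : 0 ≤ x := (le_max_right _ _).trans hx
  refine (hX0 x ((le_max_left _ _).trans hx) j).trans (le_of_eq ?_)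
  rw [← Set.ncard_coe_finset]
  congr 2
  ext n
  simp only [coe_filter, mem_Ioc, Set.mem_ofPred_eq]
  rw [Nat.floor_lt hx0, Nat.le_floor_iff (by positivity)]
  tauto

end Pool.Agent.Results.MP_1e9cc8_nt.OmegaResidueClasses
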