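import Mathlib
import Pool.Agent.SSQ.Small
import Pool.Agent.SSQ.Omega

set_option autoImplicit false

/-!
# Both parities of the number of prime factors in intervals shorter than the square root
-/

namespace Pool.Agent.Results.MP_1e9cc8_nt.ParityPowerSaving

open Pool.Agent.SqrtParity Pool.Agent.SSQ Finset

/-- one parity class is always hit -/
theorem main {δ : ℝ} (hδ : 0 < δ) : ∃ σ : ℝ, 0 < σ ∧ σ ≤ 1 / 4 ∧ ∃ x0 : ℝ, 1 ≤ x0 ∧ ∀ x ≥ x0,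
    ∀ P : Set ℕ, (∃ p ∈ P, p.Prime ∧ (p : ℝ) ≤ x ^ (1 / 10 - δ)) → ∀ e : ℤ, (e = 1 ∨ e = -1) →
      ∃ m : ℕ, x < m ∧ (m : ℝ) ≤ x + x ^ (1 / 2 - σ) ∧ sg P m = -e := by
  obtain ⟨K, hK⟩ := all_one
  obtain ⟨σ, hσ⟩ : ∃ σ : ℝ, σ = min (1 / 4) (5 * δ / (K + 1)) := ⟨_, rfl⟩
  have hσ0 : 0 < σ := by rw [hσ]; exact lt_min (by norm_num) (by positivity)
  have hσ1 : σ ≤ 1 / 4 := by rw [hσ]; exact min_le_left _ _
  have hσK : σ * K ≤ 5 * δ := by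
    have e1 : σ ≤ 5 * δ / (K + 1) := by rw [hσ]; exact min_le_right _ _
    rw [le_div_iff₀ (by positivity)] at e1
    linarith
  refine ⟨σ, hσ0, hσ1, 2 ^ (1 / σ), Real.one_le_rpow (by norm_num) (by positivity), ?_⟩
  intro x hx P ⟨p, hpP, hp, hpx⟩ e he
  have h21 : (1 : ℝ) ≤ 2 ^ (1 / σ) := Real.one_le_rpow (by norm_num) (by positivity)
  have hx1 : 1 ≤ x := h21.trans hx
  have hx0 : 0 < x := by linarith
  have hs : √x ^ 2 = x := Real.sq_sqrt hx0.le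
  have hb : 2 ≤ x ^ σ := by
    calc (2 : ℝ) = (2 ^ (1 / σ)) ^ σ := by
          rw [← Real.rpow_mul (by norm_num)]
          have : 1 / σ * σ = 1 := by field_simp
          rw [this, Real.rpow_one]
      _ ≤ x ^ σ := Real.rpow_le_rpow (by positivity) hx hσ0.le
  by_contra hcon
  push Not at hcon
  have hlen : √x / x ^ σ = x ^ (1 / 2 - σ) := by
    rw [Real.sqrt_eq_rpow, ← Real.rpow_sub hx0]
  have hH : Hyp (sg P) (√x) (x ^ σ) e := by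
    refine ⟨sg_cm P, Real.one_le_sqrt.2 hx1, hb, ?_⟩
    intro m h1 h2
    rw [hs] at h1 h2
    rw [hlen] at h2
    have h4 := hcon m h1 h2
    have h5 : 1 ≤ m := by
      have : (0 : ℝ) < m := by linarith
      exact_mod_cast this
    rcases (sg_cm P).one_or m h5 with h6 | h6 <;> rcases he with h7 | h7 <;>
      rw [h6, h7] at h4 ⊢ <;> norm_num at h4
  have h1 := hK (sg P) (√x) (x ^ σ) e hH p hp.one_le (by
    calc (p : ℝ) ^ 5 * (x ^ σ) ^ K ≤ (x ^ (1 / 10 - δ)) ^ 5 * (x ^ σ) ^ K := by gcongr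
      _ = x ^ (1 / 2 - 5 * δ + σ * K) := by
          rw [← Real.rpow_natCast, ← Real.rpow_natCast, ← Real.rpow_mul hx0.le,
            ← Real.rpow_mul hx0.le, ← Real.rpow_add hx0]
          congr 1; push_cast; ring
      _ ≤ x ^ (1 / 2 : ℝ) := Real.rpow_le_rpow_of_exponent_le hx1 (by linarith)
      _ = √x := (Real.sqrt_eq_rpow x).symm)
  rw [sg_prime hp hpP] at h1
  norm_num at h1

/-- For every `δ > 0` there is `σ > 0` such that, for every set `P` of natural numbers that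
contains a prime `p ≤ x ^ (1 / 10 - δ)`, both parities of the number of prime factors in `P` occur
in every interval `(x, x + x ^ (1 / 2 - σ)]` with `x` large, and each occurs at least `n ^ σ` times
in each of the two Oppermann intervals of every large `n`. -/
theorem result (δ : ℝ) (hδ : 0 < δ) : ∃ σ : ℝ, 0 < σ ∧
    (∃ x0 : ℝ, ∀ x ≥ x0, ∀ P : Set ℕ, (∃ p ∈ P, p.Prime ∧ (p : ℝ) ≤ x ^ (1 / 10 - δ)) →
      (∃ m : ℕ, x < m ∧ (m : ℝ) ≤ x + x ^ (1 / 2 - σ) ∧ Even (omegaP P m)) ∧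
      (∃ m : ℕ, x < m ∧ (m : ℝ) ≤ x + x ^ (1 / 2 - σ) ∧ Odd (omegaP P m))) ∧
    (∃ n0 : ℕ, ∀ n : ℕ, n0 ≤ n → ∀ P : Set ℕ,
      (∃ p ∈ P, p.Prime ∧ (p : ℝ) ≤ (n : ℝ) ^ (1 / 5 - δ)) →
      (n : ℝ) ^ σ ≤ (((Ioo (n ^ 2 - n) (n ^ 2)).filter (fun m => Even (omegaP P m))).card : ℝ) ∧
      (n : ℝ) ^ σ ≤ (((Ioo (n ^ 2 - n) (n ^ 2)).filter (fun m => Odd (omegaP P m))).card : ℝ) ∧
      (n : ℝ) ^ σ ≤ (((Ioo (n ^ 2) (n ^ 2 + n)).filter (fun m => Even (omegaP P m))).card : ℝ) ∧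
      (n : ℝ) ^ σ ≤ (((Ioo (n ^ 2) (n ^ 2 + n)).filter (fun m => Odd (omegaP P m))).card : ℝ)) := by
  obtain ⟨d, hd⟩ : ∃ d : ℝ, d = min δ (1 / 5) / 4 := ⟨_, rfl⟩
  have hd0 : 0 < d := by
    rw [hd]
    have : 0 < min δ (1 / 5) := lt_min hδ (by norm_num)
    linarith
  have hd1 : 4 * d ≤ δ := by
    have : min δ (1 / 5) ≤ δ := min_le_left _ _
    rw [hd]; linarith
  have hd2 : 4 * d ≤ 1 / 5 := by
    have : min δ (1 / 5) ≤ 1 / 5 := min_le_right _ _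
    rw [hd]; linarith
  obtain ⟨σ, hσ0, hσ1, x0, hx01, h⟩ := main hd0
  have hA' : ∀ x ≥ x0, ∀ P : Set ℕ, (∃ p ∈ P, p.Prime ∧ (p : ℝ) ≤ x ^ (1 / 10 - d)) →
      (∃ m : ℕ, x < m ∧ (m : ℝ) ≤ x + x ^ (1 / 2 - σ) ∧ Even (omegaP P m)) ∧
      (∃ m : ℕ, x < m ∧ (m : ℝ) ≤ x + x ^ (1 / 2 - σ) ∧ Odd (omegaP P m)) := by
    intro x hx P hP
    obtain ⟨m, h1, h2, h3⟩ := h x hx P hP 1 (Or.inl rfl)
    obtain ⟨m', h1', h2', h3'⟩ := h x hx P hP (-1) (Or.inr rfl)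
    exact ⟨⟨m', h1', h2', even_of_sg (by rw [h3']; norm_num)⟩, ⟨m, h1, h2, odd_of_sg h3⟩⟩
  refine ⟨σ, hσ0, ⟨x0, ?_⟩, ?_⟩
  · intro x hx P ⟨p, hpP, hp, hpx⟩
    refine hA' x hx P ⟨p, hpP, hp, hpx.trans ?_⟩
    exact Real.rpow_le_rpow_of_exponent_le (hx01.trans hx) (by linarith)
  obtain ⟨n0, hn02, hn0⟩ := many hσ0 hσ1
  obtain ⟨n1, hn1⟩ := exists_nat_ge x0
  have hlim := (tendsto_rpow_atTop hd0).comp (tendsto_natCast_atTop_atTop (R := ℝ))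
  obtain ⟨n2, hn2⟩ := Filter.eventually_atTop.1 (hlim.eventually_ge_atTop (2 : ℝ))
  refine ⟨max (max n0 (n1 + 2)) n2, ?_⟩
  intro n hn P ⟨p, hpP, hp, hpn⟩
  have hn3 : n0 ≤ n := le_trans (le_trans (le_max_left _ _) (le_max_left _ _)) hn
  have hn4 : n1 + 2 ≤ n := le_trans (le_trans (le_max_right _ _) (le_max_left _ _)) hn
  have hn5 : (2 : ℝ) ≤ (n : ℝ) ^ d := hn2 n (le_trans (le_max_right _ _) hn)
  have hnr : (2 : ℝ) ≤ n := by exact_mod_cast (by omega : 2 ≤ n)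
  have hnpos : (0 : ℝ) < n := by linarith
  have hX : ∀ X : ℕ, n ^ 2 - n ≤ X → ∀ x : ℝ, X ≤ x → x0 ≤ x ∧ (p : ℝ) ≤ x ^ (1 / 10 - d) := by
    intro X hX x hx
    have h1 : n + n ≤ n ^ 2 := by nlinarith
    have h2 : n ≤ X := by omega
    have h3 : (n : ℝ) ≤ x := le_trans (by exact_mod_cast h2) hx
    have h4 : (n1 : ℝ) ≤ n := by exact_mod_cast (by omega : n1 ≤ n)
    refine ⟨by linarith, hpn.trans ?_⟩
    have h5 : n ^ 2 ≤ 2 * X := by omega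
    have h6 : (n : ℝ) ^ 2 / 2 ≤ x := by
      have : ((n ^ 2 : ℕ) : ℝ) ≤ ((2 * X : ℕ) : ℝ) := by exact_mod_cast h5
      push_cast at this
      linarith
    have h7 : 0 ≤ 1 / 10 - d := by linarith
    calc (n : ℝ) ^ (1 / 5 - δ) ≤ (n : ℝ) ^ (1 / 5 - 4 * d) :=
          Real.rpow_le_rpow_of_exponent_le (by linarith) (by linarith)
      _ ≤ (n : ℝ) ^ (1 / 5 - 4 * d) * ((n : ℝ) ^ d / 2) := by
          have : (1 : ℝ) ≤ (n : ℝ) ^ d / 2 := by linarith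
          have h0 : 0 < (n : ℝ) ^ (1 / 5 - 4 * d) := Real.rpow_pos_of_pos hnpos _
          nlinarith
      _ = (n : ℝ) ^ (1 / 5 - 3 * d) / 2 := by
          rw [mul_div_assoc', ← Real.rpow_add hnpos]
          congr 2; ring
      _ ≤ (n : ℝ) ^ (1 / 5 - 2 * d) / 2 := by
          gcongr
          · linarith
          · linarith
      _ = ((n : ℝ) ^ 2) ^ (1 / 10 - d) / 2 ^ (1 : ℝ) := by
          rw [← Real.rpow_natCast, ← Real.rpow_mul hnpos.le, Real.rpow_one]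
          congr 2; push_cast; ring
      _ ≤ ((n : ℝ) ^ 2) ^ (1 / 10 - d) / 2 ^ (1 / 10 - d) := by
          gcongr
          · norm_num
          · linarith
      _ = ((n : ℝ) ^ 2 / 2) ^ (1 / 10 - d) := by
          rw [Real.div_rpow (by positivity) (by norm_num)]
      _ ≤ x ^ (1 / 10 - d) := Real.rpow_le_rpow (by positivity) h6 h7
  have hev : ∀ X : ℕ, n ^ 2 - n ≤ X → X ≤ n ^ 2 →
      (n : ℝ) ^ σ ≤ (((Ioo X (X + n)).filter (fun m => Even (omegaP P m))).card : ℝ) := by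
    intro X hX1 hX2
    refine hn0 n hn3 X hX1 hX2 _ _ ?_
    intro x hx _
    obtain ⟨h1, h2⟩ := hX X hX1 x hx
    exact (hA' x h1 P ⟨p, hpP, hp, h2⟩).1
  have hod : ∀ X : ℕ, n ^ 2 - n ≤ X → X ≤ n ^ 2 →
      (n : ℝ) ^ σ ≤ (((Ioo X (X + n)).filter (fun m => Odd (omegaP P m))).card : ℝ) := by
    intro X hX1 hX2
    refine hn0 n hn3 X hX1 hX2 _ _ ?_
    intro x hx _
    obtain ⟨h1, h2⟩ := hX X hX1 x hx
    exact (hA' x h1 P ⟨p, hpP, hp, h2⟩).2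
  have hsub : n ^ 2 - n + n = n ^ 2 := Nat.sub_add_cancel (by nlinarith)
  have e1 := hev (n ^ 2 - n) le_rfl (Nat.sub_le _ _)
  have o1 := hod (n ^ 2 - n) le_rfl (Nat.sub_le _ _)
  rw [hsub] at e1 o1
  exact ⟨e1, o1, hev (n ^ 2) (Nat.sub_le _ _) le_rfl, hod (n ^ 2) (Nat.sub_le _ _) le_rfl⟩

end Pool.Agent.Results.MP_1e9cc8_nt.ParityPowerSaving
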